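import Pool.Agent.E8helper16.TP.Fin
import Pool.Agent.E8helper16.TP.Eng
import Pool.Agent.E8helper97.TP.Cir
import Pool.Agent.E8helper14.TP.Cnt2
import Pool.Agent.E8helper30.TP.Sys2
import Pool.Agent.E8helper7.TP.Good
import Pool.Agent.E8helper7.TP.PP
import Pool.Agent.E8helper39.TP.Min
import Pool.Agent.E8helper56.TP.TTA
import Pool.Agent.E8helper56.TP.TEL
import Pool.Agent.E8helper69.TP.Low
import Pool.Agent.E8helper92.TP.Ser
import Pool.Agent.E8helper16.TP.CW

/-!
# Three-term progressions, sums of three primes and exponential sums for the prime pairs `p, p + h`, for almost every `h`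

For an even number `h` let `P_h` be the set of the primes `p` such that `p + h` is prime (`P_2`: the first members of the
twin prime pairs).  We show: for every `U` and `ε` there are `B` and `N₀` such that for all `N ≥ N₀`, for **all but
`N / (log N)^U` of the `h ≤ N`**, simultaneously

1. (minor arcs) `|∑_{n ≤ N} Λ(n) Λ(n + h) e(n θ)| ≤ N / (log N)^U` for **all** real `θ` which have a rational approximation
   `|θ - a / q| ≤ 1 / q²` with `(log N)^B ≤ q ≤ N / (log N)^B`;
2. (progressions of three terms in `P_h`) the sum of `Λ(x) Λ(x+h) Λ(x+y) Λ(x+y+h) Λ(x+2y) Λ(x+2y+h)` over `x + 2 y ≤ N` is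
   `𝔖(h) N² / 4 + O(N² / (log N)^U)`;
3. (Vinogradov's theorem in `P_h`) for **all** `n ≤ N` the sum of the corresponding weights of the decompositions
   `n = x + y + w` is `𝔖(h, n) n² / 2 + O(N² / (log N)^U)`;
4. for even `h` the number of the progressions `x, x + y, x + 2 y ≤ N`, `y ≥ 1`, of elements of `P_h` is
   `(1 + O(ε)) 𝔖(h) N² / (4 (log N)^6)`, and every odd `n` in `[ε N, N]` with `3 ∣ h` or `3 ∣ n` is the sum of three elements
   of `P_h` in `(1 + O(ε)) 𝔖(h, n) n² / (2 (log N)^6)` ways; `𝔖(h), 𝔖(h, n) ≥ c > 0` with an absolute constant `c` (the other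
   `n` have a local obstruction).

The set of the exceptional `h` does not depend on `θ` or `n`.  The singular series are the products over all primes `p` of
`(1 - b / p²) (1 - 1/p)⁻⁶`, `b` the number of the pairs `(x, y)` modulo `p` for which `p` divides one of the six numbers.

The starting result `MP_e87c7d_nt.ProgressionsOfPrimeTuples` gives the order of magnitude of the number of progressions of
any length in `P_h` for almost all `h` (up to constants), and the theorem of Green, Tao and Ziegler gives asymptotic formulas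
on average over `h` for a fixed system of linear forms.  The uniformity in `θ` and `n` needs more: the bound

  `∑_{h ≤ N} max_θ |∑_n F(n) (Λ - Λ_z)(n + h) e(n θ)| ≤ N² / (log N)^U`,  `F` arbitrary with `|F| ≤ (log N)²`,

`Λ_z` the sieve model, `z` a power of `log N`, which follows by the inequality of Cauchy and Schwarz from the uniformity of
order three with arbitrary powers of the logarithm (project GB of this run, `Pool.Agent.E8helper66.GB.S_U3`).  Then the
circle method applies to `P_h` for every nonexceptional `h`, with the sieve model as the main term.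

The definitions are in `Pool/Agent/E8helper16/TP/Fin.lean`.
-/

set_option autoImplicit false

namespace Pool.Agent.Results.MP_a1f59e_nt.PairsWithAlmostEveryGapH16

open Finset Pool.Agent.E8helper16.TP

/-- **Prime pairs with almost every difference: exponential sums, progressions of three terms, sums of three.** -/
theorem result :
    (∀ h : ℕ, 1 ≤ h → (Multipliable fun p : Nat.Primes => localAP h p) ∧
      ∀ n : ℕ, Multipliable fun p : Nat.Primes => localSum h n p) ∧
    ∃ c : ℝ, 0 < c ∧ ∀ (U : ℕ) (ε : ℝ), 0 < ε → ∃ B N₀ : ℕ, ∀ N : ℕ, N₀ ≤ N → ∃ E : Finset ℕ, E ⊆ Icc 1 N ∧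
      (E.card : ℝ) ≤ N / Real.log N ^ U ∧ ∀ h ∈ Icc 1 N, h ∉ E →
      -- 1. all frequencies on the minor arcs
      (∀ (q : ℕ) (a : ℤ) (θ : ℝ), IsCoprime a (q : ℤ) → Real.log N ^ B ≤ q → (q : ℝ) ≤ N / Real.log N ^ B →
        |θ - a / q| ≤ 1 / (q : ℝ) ^ 2 →
        ‖∑ n ∈ Icc 1 N, (pairWeight h n : ℂ) * Complex.exp (2 * Real.pi * Complex.I * (n * θ))‖ ≤ N / Real.log N ^ U) ∧
      -- 2. progressions of three terms
      |∑ r ∈ apRegion N, pairWeight h r.1 * pairWeight h (r.1 + r.2) * pairWeight h (r.1 + 2 * r.2) -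
        singAP h * ((N : ℝ) ^ 2 / 4)| ≤ (N : ℝ) ^ 2 / Real.log N ^ U ∧
      -- 3. sums of three, for all `n`
      (∀ n ≤ N, |∑ r ∈ sumRegion n, pairWeight h r.1 * pairWeight h r.2 * pairWeight h (n - r.1 - r.2) -
        singSum h n * ((n : ℝ) ^ 2 / 2)| ≤ (N : ℝ) ^ 2 / Real.log N ^ U) ∧
      -- 4. the numbers of progressions and of representations
      (Even h → c ≤ singAP h ∧
        (1 - ε) * (singAP h * ((N : ℝ) ^ 2 / 4) / Real.log N ^ 6) ≤ apCount h N ∧
        apCount h N ≤ (1 + ε) * (singAP h * ((N : ℝ) ^ 2 / 4) / Real.log N ^ 6) ∧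
        ∀ n : ℕ, Odd n → (3 ∣ h ∨ 3 ∣ n) → ε * N ≤ n → n ≤ N → c ≤ singSum h n ∧
          (1 - ε) * (singSum h n * ((n : ℝ) ^ 2 / 2) / Real.log N ^ 6) ≤ sumCount h n ∧
          sumCount h n ≤ (1 + ε) * (singSum h n * ((n : ℝ) ^ 2 / 2) / Real.log N ^ 6)) :=
  main fou Pool.Agent.E8helper39.TP.t_MIN Pool.Agent.E8helper56.TP.t_TTA
    (Pool.Agent.E8helper56.TP.t_TEL Pool.Agent.E8helper97.TP.t_CIR)
    (Pool.Agent.E8helper30.TP.t_SYS2 Pool.Agent.E8helper14.TP.t_CNT2) Pool.Agent.E8helper7.TP.t_GOOD
    Pool.Agent.E8helper92.TP.t_SER Pool.Agent.E8helper69.TP.t_LOW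
    (Pool.Agent.E8helper16.TP44.t_CW Pool.Agent.E8helper7.TP.t_PP)

end Pool.Agent.Results.MP_a1f59e_nt.PairsWithAlmostEveryGapH16
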